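import Mathlib
import Pool.Agent.H317.GH.Stm
import Pool.Agent.H640.GR.MOD

/-!
# Project GH, task MOE (helper840): equality of the kernels modulo all `m`
-/

set_option autoImplicit false

namespace Pool.Agent.H840.GH

open Matrix Module
open Pool.Agent.H317.GR Pool.Agent.H317.GH

/-- **MOE**. -/
theorem moe : S_MOE := by
  intro n Λ _ f h hf hh H
  have key : ∀ (p k : ℕ), p.Prime → ∀ g, h (p ^ k) g = 1 ↔ f (p ^ k) g = 1 := by
    intro p k hp g
    have : Fact p.Prime := ⟨hp⟩
    obtain ⟨ρ, σ, T, hρ, hσ, hT⟩ := H p
    rw [← hρ k g, ← hσ k g]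
    have h1 := congrArg (fun Y : GL (Fin n) ℤ_[p] =>
      GeneralLinearGroup.map (PadicInt.toZModPow k) Y) (hT g)
    simp only [map_mul] at h1
    have e2 : ∀ τ : Λ →* SpecialLinearGroup (Fin n) ℤ_[p],
        (GeneralLinearGroup.map (PadicInt.toZModPow k) (SpecialLinearGroup.toGL (τ g))) =
        SpecialLinearGroup.toGL (SpecialLinearGroup.map (PadicInt.toZModPow (p := p) k) (τ g)) := by
      intro τ
      ext i j
      rfl
    rw [e2, e2] at h1
    have inj : Function.Injective (SpecialLinearGroup.toGL :
        SpecialLinearGroup (Fin n) (ZMod (p ^ k)) → GL (Fin n) (ZMod (p ^ k))) :=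
      SpecialLinearGroup.toGL_injective
    set T' := GeneralLinearGroup.map (PadicInt.toZModPow (p := p) k) T
    constructor
    · intro h
      rw [h, map_one, one_mul] at h1
      apply inj
      rw [map_one]
      exact (mul_left_cancel ((mul_one T').trans h1)).symm
    · intro h
      rw [h, map_one, mul_one] at h1
      apply inj
      rw [map_one]
      exact mul_right_cancel (h1.trans (one_mul T').symm)
  intro m hm g
  rw [Pool.Agent.H640.GR.sl_one_iff hm, Pool.Agent.H640.GR.sl_one_iff hm]
  refine forall_congr' fun p => forall_congr' fun k => forall_congr' fun hp =>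
    forall_congr' fun hd => ?_
  rw [hh (p ^ k) m hd hm g, hf (p ^ k) m hd hm g, key p k hp g]

end Pool.Agent.H840.GH
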